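import Pool.Agent.QSX.StmtsB

/-!
# Squad QSX, row COF: coefficient comparison in a commutator formula
-/

set_option autoImplicit false

namespace Pool.Agent.QSX.H32

open Matrix Finset Polynomial

section cls

variable {F : Type} [Field F] {m : ℕ}

/-- `f` is a polynomial map with constant coefficient `a` and linear coefficient `b` -/
def Cls (f : ℕ → Matrix (Fin m) (Fin m) F) (a b : Matrix (Fin m) (Fin m) F) : Prop :=
  ∃ M : Matrix (Fin m) (Fin m) F[X], (∀ x : ℕ, ∀ i j, f x i j = (M i j).eval (x : F)) ∧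
    (∀ i j, (M i j).coeff 0 = a i j) ∧ ∀ i j, (M i j).coeff 1 = b i j

theorem Cls.unique [Algebra ℝ F] {f : ℕ → Matrix (Fin m) (Fin m) F} {a b a' b' : Matrix (Fin m) (Fin m) F}
    (h : Cls f a b) (h' : Cls f a' b') : a = a' ∧ b = b' := by
  obtain ⟨M, h1, h2, h3⟩ := h
  obtain ⟨M', h1', h2', h3'⟩ := h'
  have : CharZero F := charZero_of_injective_algebraMap (algebraMap ℝ F).injective
  have key : ∀ i j, M i j = M' i j := by
    intro i j
    apply Polynomial.eq_of_infinite_eval_eq
    apply Set.infinite_of_injective_forall_mem (f := fun n : ℕ => (n : F)) Nat.cast_injective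
    intro n
    change (M i j).eval (n : F) = (M' i j).eval (n : F)
    rw [← h1, ← h1']
  constructor
  · ext i j; rw [← h2, ← h2', key]
  · ext i j; rw [← h3, ← h3', key]

theorem Cls.congr {f g : ℕ → Matrix (Fin m) (Fin m) F} {a b a' b' : Matrix (Fin m) (Fin m) F}
    (h : Cls f a b) (hf : ∀ x, f x = g x) (ha : a = a') (hb : b = b') : Cls g a' b' := by
  obtain ⟨M, h1, h2, h3⟩ := h
  subst ha hb
  exact ⟨M, fun x i j => by rw [← hf, h1], h2, h3⟩

theorem Cls.mul {f g : ℕ → Matrix (Fin m) (Fin m) F} {a b a' b' : Matrix (Fin m) (Fin m) F}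
    (h : Cls f a b) (h' : Cls g a' b') :
    Cls (fun x => f x * g x) (a * a') (a * b' + b * a') := by
  obtain ⟨M, h1, h2, h3⟩ := h
  obtain ⟨M', h1', h2', h3'⟩ := h'
  refine ⟨M * M', fun x i j => ?_, fun i j => ?_, fun i j => ?_⟩
  · change (f x * g x) i j = _
    rw [Matrix.mul_apply, Matrix.mul_apply, Polynomial.eval_finsetSum]
    refine Finset.sum_congr rfl fun k _ => ?_
    rw [h1, h1', Polynomial.eval_mul]
  · rw [Matrix.mul_apply, Matrix.mul_apply, Polynomial.finsetSum_coeff]
    refine Finset.sum_congr rfl fun k _ => ?_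
    rw [Polynomial.mul_coeff_zero, h2, h2']
  · rw [Matrix.mul_apply, Matrix.add_apply, Matrix.mul_apply, Matrix.mul_apply,
      Polynomial.finsetSum_coeff, ← Finset.sum_add_distrib]
    refine Finset.sum_congr rfl fun k _ => ?_
    rw [Polynomial.mul_coeff_one, h2, h2', h3, h3']

theorem Cls.sub {f g : ℕ → Matrix (Fin m) (Fin m) F} {a b a' b' : Matrix (Fin m) (Fin m) F}
    (h : Cls f a b) (h' : Cls g a' b') :
    Cls (fun x => f x - g x) (a - a') (b - b') := by
  obtain ⟨M, h1, h2, h3⟩ := h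
  obtain ⟨M', h1', h2', h3'⟩ := h'
  refine ⟨M - M', fun x i j => ?_, fun i j => ?_, fun i j => ?_⟩
  · change (f x - g x) i j = _
    rw [Matrix.sub_apply, Matrix.sub_apply, Polynomial.eval_sub, h1, h1']
  · rw [Matrix.sub_apply, Matrix.sub_apply, Polynomial.coeff_sub, h2, h2']
  · rw [Matrix.sub_apply, Matrix.sub_apply, Polynomial.coeff_sub, h3, h3']

theorem Cls.add {f g : ℕ → Matrix (Fin m) (Fin m) F} {a b a' b' : Matrix (Fin m) (Fin m) F}
    (h : Cls f a b) (h' : Cls g a' b') :
    Cls (fun x => f x + g x) (a + a') (b + b') := by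
  obtain ⟨M, h1, h2, h3⟩ := h
  obtain ⟨M', h1', h2', h3'⟩ := h'
  refine ⟨M + M', fun x i j => ?_, fun i j => ?_, fun i j => ?_⟩
  · change (f x + g x) i j = _
    rw [Matrix.add_apply, Matrix.add_apply, Polynomial.eval_add, h1, h1']
  · rw [Matrix.add_apply, Matrix.add_apply, Polynomial.coeff_add, h2, h2']
  · rw [Matrix.add_apply, Matrix.add_apply, Polynomial.coeff_add, h3, h3']

theorem Cls.const (E : Matrix (Fin m) (Fin m) F) : Cls (fun _ => E) E 0 := by
  refine ⟨fun i j => C (E i j), fun x i j => ?_, fun i j => ?_, fun i j => ?_⟩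
  · exact (Polynomial.eval_C).symm
  · exact Polynomial.coeff_C_zero
  · change (C (E i j)).coeff 1 = 0
    rw [Polynomial.coeff_C]; simp

/-- the map `x ↦ (r x ^ p) • M` -/
theorem Cls.mono [Algebra ℝ F] (r : ℝ) (p : ℕ) (hp : 1 ≤ p) (M : Matrix (Fin m) (Fin m) F) :
    Cls (fun x : ℕ => (r * (x : ℝ) ^ p) • M) 0 (if p = 1 then r • M else 0) := by
  refine ⟨fun i j => monomial p (algebraMap ℝ F r * M i j), fun x i j => ?_, fun i j => ?_,
    fun i j => ?_⟩
  · change ((r * (x : ℝ) ^ p) • M) i j = (monomial p (algebraMap ℝ F r * M i j)).eval (x : F)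
    rw [Matrix.smul_apply, Algebra.smul_def, map_mul, map_pow, map_natCast,
      Polynomial.eval_monomial]
    ring
  · change (monomial p (algebraMap ℝ F r * M i j)).coeff 0 = 0
    rw [Polynomial.coeff_monomial, if_neg (by omega)]
  · change (monomial p (algebraMap ℝ F r * M i j)).coeff 1 = _
    rw [Polynomial.coeff_monomial]
    by_cases h : p = 1
    · rw [if_pos h, if_pos h, Matrix.smul_apply, Algebra.smul_def]
    · rw [if_neg h, if_neg h, Matrix.zero_apply]

/-- finite sums of classes over a range -/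
theorem Cls.sum_range (n : ℕ) (f : ℕ → ℕ → Matrix (Fin m) (Fin m) F)
    (a b : ℕ → Matrix (Fin m) (Fin m) F) (h : ∀ k < n, Cls (f k) (a k) (b k)) :
    Cls (fun x => ∑ k ∈ range n, f k x) (∑ k ∈ range n, a k) (∑ k ∈ range n, b k) := by
  induction n with
  | zero =>
    refine (Cls.const (0 : Matrix (Fin m) (Fin m) F)).congr (fun x => ?_) ?_ ?_ <;> simp
  | succ n ih =>
    refine ((ih fun k hk => h k (by omega)).add (h n (by omega))).congr (fun x => ?_) ?_ ?_
    · rw [Finset.sum_range_succ]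
    · rw [Finset.sum_range_succ]
    · rw [Finset.sum_range_succ]

/-- the map `x ↦ exp ((r x ^ p) M)` -/
theorem Cls.mexp [Algebra ℝ F] (r : ℝ) (p : ℕ) (hp : 1 ≤ p) (M : Matrix (Fin m) (Fin m) F) :
    Cls (fun x : ℕ => QSX.mexp ((r * (x : ℝ) ^ p) • M)) 1 (if p = 1 then r • M else 0) := by
  have h1 : ∀ k < m + 1, Cls (fun x : ℕ => ((k.factorial : ℝ)⁻¹) • ((r * (x : ℝ) ^ p) • M) ^ k)
      (if k = 0 then 1 else 0) (if k = 1 then (if p = 1 then r • M else 0) else 0) := by
    intro k _
    rcases Nat.eq_zero_or_pos k with hk | hk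
    · subst hk
      refine (Cls.const (1 : Matrix (Fin m) (Fin m) F)).congr (fun x => ?_) ?_ ?_ <;> simp
    · refine (Cls.mono (((k.factorial : ℝ)⁻¹) * r ^ k) (p * k) (Nat.mul_pos hp hk) (M ^ k)).congr
        (fun x => ?_) ?_ ?_
      · rw [_root_.smul_pow, smul_smul]
        congr 1
        rw [mul_pow, ← pow_mul]
        ring
      · rw [if_neg (by omega)]
      · by_cases hk1 : k = 1
        · subst hk1
          by_cases hp1 : p = 1
          · subst hp1; simp
          · rw [if_neg (by omega), if_pos rfl, if_neg hp1]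
        · rw [if_neg hk1, if_neg]
          intro h
          exact hk1 (Nat.eq_one_of_mul_eq_one_left h)
  refine (Cls.sum_range (m + 1) _ _ _ h1).congr (fun x => ?_) ?_ ?_
  · rfl
  · rw [Finset.sum_ite_eq', if_pos (Finset.mem_range.2 (Nat.succ_pos m))]
  · rcases Nat.eq_zero_or_pos m with hm | hm
    · subst hm
      ext i j
      exact i.elim0
    · rw [Finset.sum_ite_eq', if_pos (Finset.mem_range.2 (by omega))]

theorem Cls.list_prod {α : Type} (L : List α) (f : α → ℕ → Matrix (Fin m) (Fin m) F)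
    (b : α → Matrix (Fin m) (Fin m) F) (h : ∀ t ∈ L, Cls (f t) 1 (b t)) :
    Cls (fun x => (L.map fun t => f t x).prod) 1 (L.map b).sum := by
  induction L with
  | nil =>
    refine (Cls.const (1 : Matrix (Fin m) (Fin m) F)).congr (fun x => ?_) rfl ?_ <;> simp
  | cons t L ih =>
    refine ((h t List.mem_cons_self).mul
      (ih fun t' ht' => h t' (List.mem_cons_of_mem _ ht'))).congr (fun x => ?_) ?_ ?_
    · rw [List.map_cons, List.prod_cons]
    · rw [one_mul]
    · rw [List.map_cons, List.sum_cons, one_mul, mul_one, add_comm]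

theorem Cls.list_sum {α : Type} (L : List α) (f : α → ℕ → Matrix (Fin m) (Fin m) F)
    (b : α → Matrix (Fin m) (Fin m) F) (h : ∀ t ∈ L, Cls (f t) 0 (b t)) :
    Cls (fun x => (L.map fun t => f t x).sum) 0 (L.map b).sum := by
  induction L with
  | nil =>
    refine (Cls.const (0 : Matrix (Fin m) (Fin m) F)).congr (fun x => ?_) rfl ?_ <;> simp
  | cons t L ih =>
    refine ((h t List.mem_cons_self).add
      (ih fun t' ht' => h t' (List.mem_cons_of_mem _ ht'))).congr (fun x => ?_) ?_ ?_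
    · rw [List.map_cons, List.sum_cons]
    · rw [zero_add]
    · rw [List.map_cons, List.sum_cons]

end cls

theorem filter_sum {α : Type} {V : Type} [AddCommMonoid V] (P : α → Prop) [DecidablePred P]
    (f : α → V) (L : List α) :
    (L.map fun t => if P t then f t else 0).sum = ((L.filter fun t => P t).map f).sum := by
  induction L with
  | nil => rfl
  | cons t L ih =>
    rw [List.map_cons, List.sum_cons, ih]
    by_cases h : P t
    · rw [if_pos h, List.filter_cons_of_pos (by simpa using h), List.map_cons, List.sum_cons]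
    · rw [if_neg h, List.filter_cons_of_neg (by simpa using h), zero_add]

theorem cof : CofStmt := by
  intro F _ _ m ι A B C L hA hB hC hL hcom
  -- step 1
  have step1 : ∀ y : ℕ, A - QSX.mexp ((y : ℝ) • B) * A * QSX.mexp (-((y : ℝ) • B)) =
      (L.map fun t => if t.2.1 = 1 then ((t.2.2.2 : ℝ) * (y : ℝ) ^ t.2.2.1) • C t.1 else 0).sum := by
    intro y
    have hyB : SU ((y : ℝ) • B) := hB.smul _
    have c1 : Cls (fun x : ℕ => QSX.mexp ((x : ℝ) • A)) 1 A := by
      refine (Cls.mexp (1 : ℝ) 1 le_rfl A).congr (fun x => ?_) rfl ?_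
      · rw [one_mul, pow_one]
      · rw [if_pos rfl, one_smul]
    have c2 : Cls (fun x : ℕ => QSX.mexp (-((x : ℝ) • A))) 1 (-A) := by
      refine (Cls.mexp (-1 : ℝ) 1 le_rfl A).congr (fun x => ?_) rfl ?_
      · rw [pow_one, neg_one_mul, neg_smul]
      · rw [if_pos rfl, neg_one_smul]
    have c3 := ((c1.mul (Cls.const (QSX.mexp ((y : ℝ) • B)))).mul c2).mul
      (Cls.const (QSX.mexp (-((y : ℝ) • B))))
    have c4 := Cls.list_prod L (fun t (x : ℕ) =>
        QSX.mexp (((t.2.2.2 : ℝ) * (x : ℝ) ^ t.2.1 * (y : ℝ) ^ t.2.2.1) • C t.1))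
      (fun t => if t.2.1 = 1 then ((t.2.2.2 : ℝ) * (y : ℝ) ^ t.2.2.1) • C t.1 else 0) (by
        intro t ht
        refine (Cls.mexp ((t.2.2.2 : ℝ) * (y : ℝ) ^ t.2.2.1) t.2.1 (hL t ht).1 (C t.1)).congr
          (fun x => ?_) rfl rfl
        congr 2
        ring)
    have c5 := c3.congr (g := fun x : ℕ => (L.map fun t =>
        QSX.mexp (((t.2.2.2 : ℝ) * (x : ℝ) ^ t.2.1 * (y : ℝ) ^ t.2.2.1) • C t.1)).prod)
      (fun x => ?_) rfl rfl
    · have := (c5.unique c4).2
      rw [← this]
      simp only [one_mul, mul_one, mul_zero, zero_add, mul_neg]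
      rw [add_mul, neg_mul, mul_assoc A, mexp_mul_neg hyB, mul_one]
      abel
    · have h1 := congrArg (fun u : (Matrix (Fin m) (Fin m) F)ˣ => (u : Matrix (Fin m) (Fin m) F))
        (hcom x y)
      simp only [Units.val_mul] at h1
      rw [ue_val (hA.smul _), ue_val hyB, ue_inv_val (hA.smul _), ue_inv_val hyB] at h1
      rw [h1]
      change (Units.coeHom (Matrix (Fin m) (Fin m) F)) _ = _
      rw [map_list_prod, List.map_map]
      congr 1
      apply List.map_congr_left
      intro t ht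
      exact ue_val ((hC t ht).smul _)
  -- step 2
  have d1 : Cls (fun y : ℕ => QSX.mexp ((y : ℝ) • B)) 1 B := by
    refine (Cls.mexp (1 : ℝ) 1 le_rfl B).congr (fun x => ?_) rfl ?_
    · rw [one_mul, pow_one]
    · rw [if_pos rfl, one_smul]
  have d2 : Cls (fun y : ℕ => QSX.mexp (-((y : ℝ) • B))) 1 (-B) := by
    refine (Cls.mexp (-1 : ℝ) 1 le_rfl B).congr (fun x => ?_) rfl ?_
    · rw [pow_one, neg_one_mul, neg_smul]
    · rw [if_pos rfl, neg_one_smul]
  have d3 := (Cls.const A).sub ((d1.mul (Cls.const A)).mul d2)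
  have d4 := Cls.list_sum L (fun t (y : ℕ) =>
      if t.2.1 = 1 then ((t.2.2.2 : ℝ) * (y : ℝ) ^ t.2.2.1) • C t.1 else 0)
    (fun t => if t.2.1 = 1 ∧ t.2.2.1 = 1 then ((t.2.2.2 : ℚ) : ℝ) • C t.1 else 0) (by
      intro t ht
      by_cases h : t.2.1 = 1
      · refine (Cls.mono (t.2.2.2 : ℝ) t.2.2.1 (hL t ht).2 (C t.1)).congr (fun x => ?_) rfl ?_
        · rw [if_pos h]
        · by_cases h' : t.2.2.1 = 1
          · rw [if_pos h', if_pos ⟨h, h'⟩]
          · rw [if_neg h', if_neg fun h2 => h' h2.2]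
      · refine (Cls.const (0 : Matrix (Fin m) (Fin m) F)).congr (fun x => ?_) rfl ?_
        · rw [if_neg h]
        · rw [if_neg fun h2 => h h2.1])
  have d5 := (d3.congr (fun y => step1 y) rfl rfl).unique d4
  have d6 := d5.2
  rw [filter_sum (fun t : ι × ℕ × ℕ × ℚ => t.2.1 = 1 ∧ t.2.2.1 = 1)
    (fun t => ((t.2.2.2 : ℚ) : ℝ) • C t.1) L] at d6
  rw [← d6]
  simp only [one_mul, mul_one, mul_zero, zero_add, mul_neg]
  abel

end Pool.Agent.QSX.H32
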