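import Pool.Agent.QSX.StmtsE

/-!
# Squad QSX, row EBN: norm and length of block diagonal matrices
-/

set_option autoImplicit false

namespace Pool.Agent.QSX.H32

open Matrix Finset WithLp

section

variable {m m' : ℕ}

/-- the vector with blocks `u`, `w` -/
noncomputable def jn (u : Fin m → ℝ) (w : Fin m' → ℝ) : EuclideanSpace ℝ (Fin (m + m')) :=
  toLp 2 (Fin.append u w)

theorem jn_norm (u : Fin m → ℝ) (w : Fin m' → ℝ) :
    ‖jn u w‖ ^ 2 = ‖(toLp 2 u : EuclideanSpace ℝ (Fin m))‖ ^ 2 +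
      ‖(toLp 2 w : EuclideanSpace ℝ (Fin m'))‖ ^ 2 := by
  rw [EuclideanSpace.real_norm_sq_eq, EuclideanSpace.real_norm_sq_eq,
    EuclideanSpace.real_norm_sq_eq, Fin.sum_univ_add]
  simp [jn]

theorem bd_mulVec (A : Matrix (Fin m) (Fin m) ℝ) (B : Matrix (Fin m') (Fin m') ℝ)
    (u : Fin m → ℝ) (w : Fin m' → ℝ) :
    bd A B *ᵥ Fin.append u w = Fin.append (A *ᵥ u) (B *ᵥ w) := by
  ext i
  refine Fin.addCases (fun i => ?_) (fun i => ?_) i
  · rw [Fin.append_left, Matrix.mulVec, Matrix.mulVec, dotProduct, dotProduct, Fin.sum_univ_add]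
    simp
  · rw [Fin.append_right, Matrix.mulVec, Matrix.mulVec, dotProduct, dotProduct, Fin.sum_univ_add]
    simp

theorem bd_jn (A : Matrix (Fin m) (Fin m) ℝ) (B : Matrix (Fin m') (Fin m') ℝ)
    (u : Fin m → ℝ) (w : Fin m' → ℝ) :
    Matrix.toEuclideanCLM (n := Fin (m + m')) (𝕜 := ℝ) (bd A B) (jn u w) =
      jn (A *ᵥ u) (B *ᵥ w) := by
  rw [jn, Matrix.toEuclideanCLM_toLp, bd_mulVec]
  rfl

theorem nrm_nonneg {k : ℕ} (A : Matrix (Fin k) (Fin k) ℝ) : 0 ≤ nrm A := norm_nonneg _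

theorem nrm_le {k : ℕ} (A : Matrix (Fin k) (Fin k) ℝ) (u : Fin k → ℝ) :
    ‖(toLp 2 (A *ᵥ u) : EuclideanSpace ℝ (Fin k))‖ ≤
      nrm A * ‖(toLp 2 u : EuclideanSpace ℝ (Fin k))‖ := by
  have := (Matrix.toEuclideanCLM (n := Fin k) (𝕜 := ℝ) A).le_opNorm (toLp 2 u)
  rwa [Matrix.toEuclideanCLM_toLp] at this

theorem nrm_bound {k : ℕ} (A : Matrix (Fin k) (Fin k) ℝ) (M : ℝ) (hM : 0 ≤ M)
    (h : ∀ u : Fin k → ℝ, ‖(toLp 2 (A *ᵥ u) : EuclideanSpace ℝ (Fin k))‖ ^ 2 ≤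
      M ^ 2 * ‖(toLp 2 u : EuclideanSpace ℝ (Fin k))‖ ^ 2) : nrm A ≤ M := by
  refine ContinuousLinearMap.opNorm_le_bound _ hM fun v => ?_
  have h1 := h (ofLp v)
  rw [← mul_pow] at h1
  have h2 := (pow_le_pow_iff_left₀ (norm_nonneg _)
    (mul_nonneg hM (norm_nonneg _)) two_ne_zero).1 h1
  exact h2

theorem nrm_bd (A : Matrix (Fin m) (Fin m) ℝ) (B : Matrix (Fin m') (Fin m') ℝ) :
    nrm (bd A B) = max (nrm A) (nrm B) := by
  apply le_antisymm
  · refine nrm_bound _ _ (le_max_of_le_left (nrm_nonneg A)) fun v => ?_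
    obtain ⟨u, w, rfl⟩ : ∃ (u : Fin m → ℝ) (w : Fin m' → ℝ), v = Fin.append u w :=
      ⟨fun i => v (Fin.castAdd m' i), fun i => v (Fin.natAdd m i), (Fin.append_castAdd_natAdd).symm⟩
    rw [bd_mulVec]
    change ‖jn (A *ᵥ u) (B *ᵥ w)‖ ^ 2 ≤ _ * ‖jn u w‖ ^ 2
    rw [jn_norm, jn_norm, mul_add]
    have h1 := nrm_le A u
    have h2 := nrm_le B w
    have hA : nrm A ≤ max (nrm A) (nrm B) := le_max_left _ _
    have hB : nrm B ≤ max (nrm A) (nrm B) := le_max_right _ _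
    apply add_le_add
    · rw [← mul_pow]
      exact pow_le_pow_left₀ (norm_nonneg _)
        (h1.trans (mul_le_mul_of_nonneg_right hA (norm_nonneg _))) 2
    · rw [← mul_pow]
      exact pow_le_pow_left₀ (norm_nonneg _)
        (h2.trans (mul_le_mul_of_nonneg_right hB (norm_nonneg _))) 2
  · have key : ∀ (u : Fin m → ℝ) (w : Fin m' → ℝ), ‖jn (A *ᵥ u) (B *ᵥ w)‖ ^ 2 ≤
        nrm (bd A B) ^ 2 * ‖jn u w‖ ^ 2 := by
      intro u w
      have h1 := nrm_le (bd A B) (Fin.append u w)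
      rw [bd_mulVec] at h1
      rw [← mul_pow]
      exact pow_le_pow_left₀ (norm_nonneg _) h1 2
    apply max_le
    · refine nrm_bound _ _ (nrm_nonneg _) fun u => ?_
      have h1 := key u 0
      rw [jn_norm, jn_norm, Matrix.mulVec_zero] at h1
      have h0 : ‖(toLp 2 (0 : Fin m' → ℝ) : EuclideanSpace ℝ (Fin m'))‖ = 0 := by
        rw [toLp_zero, norm_zero]
      rw [h0] at h1
      nlinarith [h1]
    · refine nrm_bound _ _ (nrm_nonneg _) fun w => ?_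
      have h1 := key 0 w
      rw [jn_norm, jn_norm, Matrix.mulVec_zero] at h1
      have h0 : ‖(toLp 2 (0 : Fin m → ℝ) : EuclideanSpace ℝ (Fin m))‖ = 0 := by
        rw [toLp_zero, norm_zero]
      rw [h0] at h1
      nlinarith [h1]

end

theorem log_max (a b : ℝ) (ha : a = 0 ∨ 1 ≤ a) (hb : b = 0 ∨ 1 ≤ b) :
    Real.log (max a b) = max (Real.log a) (Real.log b) := by
  rcases ha with rfl | ha
  · rcases hb with rfl | hb
    · simp
    · rw [max_eq_right (by linarith), Real.log_zero, max_eq_right (Real.log_nonneg hb)]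
  · rcases hb with rfl | hb
    · rw [max_eq_left (by linarith), Real.log_zero, max_eq_left (Real.log_nonneg ha)]
    · rcases le_total a b with h | h
      · rw [max_eq_right h, max_eq_right (Real.log_le_log (by linarith) h)]
      · rw [max_eq_left h, max_eq_left (Real.log_le_log (by linarith) h)]

theorem ebn (hlen : LenStmt) : EbnStmt := by
  intro m m'
  refine ⟨nrm_bd, fun g h => ?_⟩
  have key : ∀ (k : ℕ) (u : (Matrix (Fin k) (Fin k) ℝ)ˣ),
      max (nrm (u : Matrix (Fin k) (Fin k) ℝ))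
        (nrm ((u⁻¹ : (Matrix (Fin k) (Fin k) ℝ)ˣ) : Matrix (Fin k) (Fin k) ℝ)) = 0 ∨
      1 ≤ max (nrm (u : Matrix (Fin k) (Fin k) ℝ))
        (nrm ((u⁻¹ : (Matrix (Fin k) (Fin k) ℝ)ˣ) : Matrix (Fin k) (Fin k) ℝ)) := by
    intro k u
    have h0 : 0 ≤ max (nrm (u : Matrix (Fin k) (Fin k) ℝ))
        (nrm ((u⁻¹ : (Matrix (Fin k) (Fin k) ℝ)ˣ) : Matrix (Fin k) (Fin k) ℝ)) :=
      le_max_of_le_left (nrm_nonneg _)
    rcases h0.eq_or_lt with h1 | h1
    · exact Or.inl h1.symm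
    · right
      exact (Real.log_nonneg_iff h1).1 (hlen k u u).1
  have h1 : len (bdU g h) = Real.log (max (nrm (bd (g : Matrix (Fin m) (Fin m) ℝ)
      (h : Matrix (Fin m') (Fin m') ℝ)))
      (nrm (bd ((g⁻¹ : (Matrix (Fin m) (Fin m) ℝ)ˣ) : Matrix (Fin m) (Fin m) ℝ)
        ((h⁻¹ : (Matrix (Fin m') (Fin m') ℝ)ˣ) : Matrix (Fin m') (Fin m') ℝ)))) := rfl
  rw [h1, nrm_bd, nrm_bd, max_max_max_comm, log_max _ _ (key m g) (key m' h)]
  rfl

end Pool.Agent.QSX.H32
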