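import Pool.Agent.QSX.StmtsM

/-!
# Squad QSX, row MDX: the group of a datum has a right invariant mean
-/

set_option autoImplicit false

namespace Pool.Agent.QSX.H32

open Matrix Finset

theorem mexp_lower {m : ℕ} {x : Matrix (Fin m) (Fin m) ℝ} (hx : SU x) (i j : Fin m)
    (hij : j < i) : mexp x i j = 0 := by
  rw [mexp, Matrix.sum_apply]
  refine Finset.sum_eq_zero fun k _ => ?_
  rw [Matrix.smul_apply, hx.pow_apply k i j ?_, smul_zero]
  have h : (j : ℕ) < (i : ℕ) := hij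
  omega

theorem mdx : MdxStmt := by
  intro hfsv hmea huts hfcm hfex X G hG
  apply hmea
  apply hfsv hfcm hfex
  apply huts X.m G
  intro g hg i j hij
  obtain ⟨p, rfl⟩ := (hG g).1 hg
  have hsu : SU (p.1 : Matrix (Fin X.m) (Fin X.m) ℝ) := X.su _ p.1.2
  have h1 : ((X.mat p : (Matrix (Fin X.m) (Fin X.m) ℝ)ˣ) : Matrix (Fin X.m) (Fin X.m) ℝ) =
      mexp (p.1 : Matrix (Fin X.m) (Fin X.m) ℝ) *
        diagonal fun i => Real.exp ((p.2 : Fin X.m → ℝ) i) := by
    rw [Dat.mat, Units.val_mul, ue_val hsu]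
    rfl
  rw [h1, Matrix.mul_diagonal, mexp_lower hsu i j hij, zero_mul]

end Pool.Agent.QSX.H32
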